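import Mathlib
import Pool.Agent.Helper32.CL.St4

/-!
Module AR of project CL (MP_b2fa09_gt).
-/

set_option autoImplicit false

open Helper32.CL Helper35.PI Helper35.PI2
open scoped Topology BigOperators
open Filter

namespace Pool.Agent.Helper9.CL

/-! ### Laurent forms and their derivatives -/

/-- degree one -/
noncomputable def Lf (c₁ c₂ c₃ c₄ c₅ X Y Z : ℝ) : ℝ :=
  c₁ * X + c₂ * Y + c₃ * (Z / Y) + c₄ * (X * Z / Y ^ 2) + c₅ * (Z ^ 2 / Y ^ 3)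

/-- degree zero -/
noncomputable def Mf (c₁ c₂ c₃ c₄ c₅ X Y Z : ℝ) : ℝ :=
  c₁ * (X / Y) + c₂ + c₃ * (Z / Y ^ 2) + c₄ * (X * Z / Y ^ 3) + c₅ * (Z ^ 2 / Y ^ 4)

/-- degree minus one -/
noncomputable def Nf (c₁ c₂ Y Z : ℝ) : ℝ := c₁ / Y + c₂ * (Z / Y ^ 3)

noncomputable def DL (c₁ c₂ c₃ c₄ c₅ X Y Z x y z : ℝ) : ℝ :=
  (c₁ + c₄ * (Z / Y ^ 2)) * x
    + (c₂ - c₃ * (Z / Y ^ 2) - 2 * c₄ * (X / Y * (Z / Y ^ 2)) - 3 * c₅ * (Z / Y ^ 2) ^ 2) * y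
    + (c₃ + c₄ * (X / Y) + 2 * c₅ * (Z / Y ^ 2)) / Y * z

noncomputable def D2 (c₁ c₂ c₃ c₄ c₅ X Y Z x y z : ℝ) : ℝ :=
  2 * (-2 * c₄ * (Z / Y ^ 2)) / Y * (x * y) + 2 * c₄ / Y ^ 2 * (x * z)
    + (2 * c₃ * (Z / Y ^ 2) + 6 * c₄ * (X / Y * (Z / Y ^ 2)) + 12 * c₅ * (Z / Y ^ 2) ^ 2) / Y
      * (y * y)
    + 2 * (-c₃ - 2 * c₄ * (X / Y) - 6 * c₅ * (Z / Y ^ 2)) / Y ^ 2 * (y * z)
    + 2 * c₅ / Y ^ 3 * (z * z)

noncomputable def DM (c₁ c₂ c₃ c₄ c₅ X Y Z x y z : ℝ) : ℝ :=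
  (c₁ + c₄ * (Z / Y ^ 2)) / Y * x
    + (-c₁ * (X / Y) - 2 * c₃ * (Z / Y ^ 2) - 3 * c₄ * (X / Y * (Z / Y ^ 2))
        - 4 * c₅ * (Z / Y ^ 2) ^ 2) / Y * y
    + (c₃ + c₄ * (X / Y) + 2 * c₅ * (Z / Y ^ 2)) / Y ^ 2 * z

noncomputable def DN (c₁ c₂ Y Z y z : ℝ) : ℝ :=
  (-c₁ - 3 * c₂ * (Z / Y ^ 2)) / Y ^ 2 * y + c₂ / Y ^ 3 * z

lemma hasA (X x : ℝ) : HasDerivAt (fun t : ℝ => X + t * x) x 0 := by
  simpa using ((hasDerivAt_id (0:ℝ)).mul_const x).const_add X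

lemma hasDL (c₁ c₂ c₃ c₄ c₅ X Y Z x y z : ℝ) (hY : Y ≠ 0) :
    HasDerivAt (fun t : ℝ => Lf c₁ c₂ c₃ c₄ c₅ (X + t * x) (Y + t * y) (Z + t * z))
      (DL c₁ c₂ c₃ c₄ c₅ X Y Z x y z) 0 := by
  have hx := hasA X x
  have hy := hasA Y y
  have hz := hasA Z z
  have hY0 : Y + 0 * y ≠ 0 := by simpa using hY
  have h := ((((hx.const_mul c₁).add (hy.const_mul c₂)).add ((hz.div hy hY0).const_mul c₃)).add
    (((hx.mul hz).div (hy.pow 2) (pow_ne_zero 2 hY0)).const_mul c₄)).add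
    (((hz.pow 2).div (hy.pow 3) (pow_ne_zero 3 hY0)).const_mul c₅)
  refine h.congr_deriv ?_
  simp only [DL, zero_mul, add_zero, Pi.div_apply, Pi.pow_apply, Pi.add_apply, Pi.mul_apply]
  field_simp
  ring

lemma hasDM (c₁ c₂ c₃ c₄ c₅ X Y Z x y z : ℝ) (hY : Y ≠ 0) :
    HasDerivAt (fun t : ℝ => Mf c₁ c₂ c₃ c₄ c₅ (X + t * x) (Y + t * y) (Z + t * z))
      (DM c₁ c₂ c₃ c₄ c₅ X Y Z x y z) 0 := by
  have hx := hasA X x
  have hy := hasA Y y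
  have hz := hasA Z z
  have hY0 : Y + 0 * y ≠ 0 := by simpa using hY
  have h := (((((hx.div hy hY0).const_mul c₁).add (hasDerivAt_const (0:ℝ) c₂)).add
      ((hz.div (hy.pow 2) (pow_ne_zero 2 hY0)).const_mul c₃)).add
    (((hx.mul hz).div (hy.pow 3) (pow_ne_zero 3 hY0)).const_mul c₄)).add
    (((hz.pow 2).div (hy.pow 4) (pow_ne_zero 4 hY0)).const_mul c₅)
  refine h.congr_deriv ?_
  simp only [DM, zero_mul, add_zero, Pi.div_apply, Pi.pow_apply, Pi.add_apply, Pi.mul_apply]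
  field_simp
  ring

lemma hasDN (c₁ c₂ Y Z y z : ℝ) (hY : Y ≠ 0) :
    HasDerivAt (fun t : ℝ => Nf c₁ c₂ (Y + t * y) (Z + t * z))
      (DN c₁ c₂ Y Z y z) 0 := by
  have hy := hasA Y y
  have hz := hasA Z z
  have hY0 : Y + 0 * y ≠ 0 := by simpa using hY
  have h := ((hasDerivAt_const (0:ℝ) c₁).div hy hY0).add
      ((hz.div (hy.pow 3) (pow_ne_zero 3 hY0)).const_mul c₂)
  refine h.congr_deriv ?_
  simp only [DN, zero_mul, add_zero, Pi.div_apply, Pi.pow_apply, Pi.add_apply, Pi.mul_apply]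
  field_simp
  ring

lemma hasD2 (c₁ c₂ c₃ c₄ c₅ X Y Z x y z : ℝ) (hY : Y ≠ 0) :
    HasDerivAt (fun t : ℝ => DL c₁ c₂ c₃ c₄ c₅ (X + t * x) (Y + t * y) (Z + t * z) x y z)
      (D2 c₁ c₂ c₃ c₄ c₅ X Y Z x y z) 0 := by
  have hx := hasA X x
  have hy := hasA Y y
  have hz := hasA Z z
  have hY0 : Y + 0 * y ≠ 0 := by simpa using hY
  have hu := hz.div (hy.pow 2) (pow_ne_zero 2 hY0)
  have hv := hx.div hy hY0
  have h := ((((hu.const_mul c₄).const_add c₁).mul_const x).add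
    (((((hu.const_mul c₃).const_sub c₂).sub ((hv.mul hu).const_mul (2 * c₄))).sub
      ((hu.pow 2).const_mul (3 * c₅))).mul_const y)).add
    (((((hv.const_mul c₄).const_add c₃).add (hu.const_mul (2 * c₅))).div hy hY0).mul_const z)
  refine h.congr_deriv ?_
  simp only [D2, zero_mul, add_zero, Pi.div_apply, Pi.pow_apply, Pi.add_apply, Nat.reduceSub, pow_one]
  field_simp
  ring

lemma fd_of_line {E : Type} [NormedAddCommGroup E] [NormedSpace ℝ E] (F : E → ℝ) (p v : E)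
    (hF : DifferentiableAt ℝ F p) (d : ℝ)
    (h : HasDerivAt (fun t : ℝ => F (p + t • v)) d 0) : fderiv ℝ F p v = d := by
  have h1 : HasLineDerivAt ℝ F (fderiv ℝ F p v) p v := hF.hasFDerivAt.hasLineDerivAt v
  exact HasDerivAt.unique h1 h

lemma fD0 (X Y Z : ℝ) (hY : 0 < Y) :
    fD 0 (X, Y, Z) = Lf (13 / 80) (-9 / 640) (-43 / 320) (7 / 40) (-7 / 40) X Y Z := by
  simp only [fD, rp, mp, dn, Lf]
  field_simp
  ring

lemma a2D0 (X Y Z : ℝ) (hY : 0 < Y) :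
    a2D 0 (X, Y, Z) = Lf (1 / 20) (-53 / 16000) (-11 / 320) (7 / 40) (-7 / 40) X Y Z := by
  simp only [a2D, fD, rp, mp, dn, Lf]
  field_simp
  ring

lemma a1D0 (X Y Z : ℝ) (hY : 0 < Y) :
    a1D 0 (X, Y, Z) = Mf (-1 / 10) (53 / 8000) (327 / 800) (-7 / 20) (-23 / 20) X Y Z := by
  simp only [a1D, rp, mp, dn, Mf]
  field_simp
  ring

lemma a3D0 (X Y Z : ℝ) (hY : 0 < Y) :
    a3D 0 (X, Y, Z) = Nf (-17 / 50) (3 / 2) Y Z := by
  simp only [a3D, mp, dn, Nf]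
  field_simp
  ring

lemma dphi (X Y Z w : ℝ) (hY : 0 < Y) (x y z v : ℝ) :
    fderiv ℝ (cD 0).φ (X, Y, Z, w) (x, y, z, v)
      = DL (13 / 80) (-9 / 640) (-43 / 320) (7 / 40) (-7 / 40) X Y Z x y z := by
  have hev : (cD 0).φ =ᶠ[𝓝 (X, Y, Z, w)] fun p : ℝ × ℝ × ℝ × ℝ =>
      Lf (13 / 80) (-9 / 640) (-43 / 320) (7 / 40) (-7 / 40) p.1 p.2.1 p.2.2.1 := by
    filter_upwards [(isOpen_lt (continuous_const (y := (0:ℝ)))
      (continuous_fst.comp (continuous_snd (X := ℝ) (Y := ℝ × ℝ × ℝ)))).mem_nhds hY] with p hp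
    exact fD0 _ _ _ hp
  rw [hev.fderiv_eq]
  apply fd_of_line
  · unfold Lf
    have h1 : (X, Y, Z, w).2.1 ≠ 0 := hY.ne'
    fun_prop (disch := first | exact h1 | exact pow_ne_zero _ h1)
  · simpa using hasDL (13 / 80) (-9 / 640) (-43 / 320) (7 / 40) (-7 / 40) X Y Z x y z hY.ne'

lemma d2phi (X Y Z w : ℝ) (hY : 0 < Y) (x y z v : ℝ) :
    fderiv ℝ (fun q => fderiv ℝ (cD 0).φ q (x, y, z, v)) (X, Y, Z, w) (x, y, z, v)
      = D2 (13 / 80) (-9 / 640) (-43 / 320) (7 / 40) (-7 / 40) X Y Z x y z := by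
  have hev : (fun q => fderiv ℝ (cD 0).φ q (x, y, z, v)) =ᶠ[𝓝 (X, Y, Z, w)]
      fun p : ℝ × ℝ × ℝ × ℝ =>
      DL (13 / 80) (-9 / 640) (-43 / 320) (7 / 40) (-7 / 40) p.1 p.2.1 p.2.2.1 x y z := by
    filter_upwards [(isOpen_lt (continuous_const (y := (0:ℝ)))
      (continuous_fst.comp (continuous_snd (X := ℝ) (Y := ℝ × ℝ × ℝ)))).mem_nhds hY] with p hp
    exact dphi _ _ _ _ hp _ _ _ _
  rw [hev.fderiv_eq]
  apply fd_of_line
  · unfold DL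
    have h1 : (X, Y, Z, w).2.1 ≠ 0 := hY.ne'
    fun_prop (disch := first | exact h1 | exact pow_ne_zero _ h1)
  · simpa using hasD2 (13 / 80) (-9 / 640) (-43 / 320) (7 / 40) (-7 / 40) X Y Z x y z hY.ne'

lemma da2 (X Y Z : ℝ) (hY : 0 < Y) (x y z : ℝ) :
    fderiv ℝ (cD 0).a₂ (X, Y, Z) (x, y, z)
      = DL (1 / 20) (-53 / 16000) (-11 / 320) (7 / 40) (-7 / 40) X Y Z x y z := by
  have hev : (cD 0).a₂ =ᶠ[𝓝 (X, Y, Z)] fun p : ℝ × ℝ × ℝ =>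
      Lf (1 / 20) (-53 / 16000) (-11 / 320) (7 / 40) (-7 / 40) p.1 p.2.1 p.2.2 := by
    filter_upwards [(isOpen_lt (continuous_const (y := (0:ℝ)))
      (continuous_fst.comp (continuous_snd (X := ℝ) (Y := ℝ × ℝ)))).mem_nhds hY] with p hp
    exact a2D0 _ _ _ hp
  rw [hev.fderiv_eq]
  apply fd_of_line
  · unfold Lf
    have h1 : (X, Y, Z).2.1 ≠ 0 := hY.ne'
    fun_prop (disch := first | exact h1 | exact pow_ne_zero _ h1)
  · simpa using hasDL (1 / 20) (-53 / 16000) (-11 / 320) (7 / 40) (-7 / 40) X Y Z x y z hY.ne'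

lemma da1 (X Y Z : ℝ) (hY : 0 < Y) (x y z : ℝ) :
    fderiv ℝ (cD 0).a₁ (X, Y, Z) (x, y, z)
      = DM (-1 / 10) (53 / 8000) (327 / 800) (-7 / 20) (-23 / 20) X Y Z x y z := by
  have hev : (cD 0).a₁ =ᶠ[𝓝 (X, Y, Z)] fun p : ℝ × ℝ × ℝ =>
      Mf (-1 / 10) (53 / 8000) (327 / 800) (-7 / 20) (-23 / 20) p.1 p.2.1 p.2.2 := by
    filter_upwards [(isOpen_lt (continuous_const (y := (0:ℝ)))
      (continuous_fst.comp (continuous_snd (X := ℝ) (Y := ℝ × ℝ)))).mem_nhds hY] with p hp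
    exact a1D0 _ _ _ hp
  rw [hev.fderiv_eq]
  apply fd_of_line
  · unfold Mf
    have h1 : (X, Y, Z).2.1 ≠ 0 := hY.ne'
    fun_prop (disch := first | exact h1 | exact pow_ne_zero _ h1)
  · simpa using hasDM (-1 / 10) (53 / 8000) (327 / 800) (-7 / 20) (-23 / 20) X Y Z x y z hY.ne'

lemma da3 (X Y Z : ℝ) (hY : 0 < Y) (x y z : ℝ) :
    fderiv ℝ (cD 0).a₃ (X, Y, Z) (x, y, z)
      = DN (-17 / 50) (3 / 2) Y Z y z := by
  have hev : (cD 0).a₃ =ᶠ[𝓝 (X, Y, Z)] fun p : ℝ × ℝ × ℝ =>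
      Nf (-17 / 50) (3 / 2) p.2.1 p.2.2 := by
    filter_upwards [(isOpen_lt (continuous_const (y := (0:ℝ)))
      (continuous_fst.comp (continuous_snd (X := ℝ) (Y := ℝ × ℝ)))).mem_nhds hY] with p hp
    exact a3D0 _ _ _ hp
  rw [hev.fderiv_eq]
  apply fd_of_line
  · unfold Nf
    have h1 : (X, Y, Z).2.1 ≠ 0 := hY.ne'
    fun_prop (disch := first | exact h1 | exact pow_ne_zero _ h1)
  · simpa using hasDN (-17 / 50) (3 / 2) Y Z y z hY.ne'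


/-! ### Calculus of bounded pairs -/

def LL {V : Type} [NormedAddCommGroup V] (a b M : ℝ) (x y : V) : Prop :=
  ‖x‖ ≤ M * a ∧ ‖y - x‖ ≤ M * b

def QQ (a b M x y : ℝ) : Prop := |y - x| ≤ M * (2 * a * b + b ^ 2)

section Calc

variable {V : Type} [NormedAddCommGroup V] [InnerProductSpace ℝ V] {a b M M' K : ℝ}

lemma LL.mono {x y : V} (h : LL a b M x y) (ha : 0 ≤ a) (hb : 0 ≤ b) (hM : M ≤ M') :
    LL a b M' x y :=
  ⟨h.1.trans (mul_le_mul_of_nonneg_right hM ha), h.2.trans (mul_le_mul_of_nonneg_right hM hb)⟩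

lemma LL.add {x y x' y' : V} (h : LL a b M x y) (h' : LL a b M' x' y') :
    LL a b (M + M') (x + x') (y + y') := by
  refine ⟨(norm_add_le _ _).trans ?_, ?_⟩
  · have := h.1
    have := h'.1
    linarith
  · have e : y + y' - (x + x') = (y - x) + (y' - x') := by abel
    rw [e]
    refine (norm_add_le _ _).trans ?_
    have := h.2
    have := h'.2
    linarith

lemma LL.sum {f g : Fin 2 → V} (h : ∀ i, LL a b M (f i) (g i)) :
    LL a b (2 * M) (∑ i, f i) (∑ i, g i) := by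
  rw [Fin.sum_univ_two, Fin.sum_univ_two, two_mul]
  exact (h 0).add (h 1)

lemma LL.smul {x y : V} (h : LL a b M x y) {c : ℝ} (hc : |c| ≤ K) :
    LL a b (K * M) (c • x) (c • y) := by
  have hK : 0 ≤ K := (abs_nonneg _).trans hc
  refine ⟨?_, ?_⟩
  · rw [norm_smul, Real.norm_eq_abs, mul_assoc]
    exact mul_le_mul hc h.1 (norm_nonneg _) hK
  · rw [← smul_sub, norm_smul, Real.norm_eq_abs, mul_assoc]
    exact mul_le_mul hc h.2 (norm_nonneg _) hK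

lemma LL.mulc {x y : ℝ} (h : LL a b M x y) {c : ℝ} (hc : |c| ≤ K) :
    LL a b (K * M) (c * x) (c * y) := h.smul hc

lemma LL.smulv {x y : ℝ} (h : LL a b M x y) {w : V} (hw : ‖w‖ ≤ K) :
    LL a b (K * M) (x • w) (y • w) := by
  have hK : 0 ≤ K := (norm_nonneg _).trans hw
  refine ⟨?_, ?_⟩
  · rw [norm_smul, mul_comm, mul_assoc]
    exact mul_le_mul hw h.1 (norm_nonneg _) hK
  · rw [← sub_smul, norm_smul, mul_comm, mul_assoc]
    exact mul_le_mul hw h.2 (norm_nonneg _) hK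

lemma LL.innl {x y : V} (h : LL a b M x y) {w : V} (hw : ‖w‖ ≤ K) :
    LL a b (K * M) (inner ℝ w x : ℝ) (inner ℝ w y) := by
  have hK : 0 ≤ K := (norm_nonneg _).trans hw
  refine ⟨?_, ?_⟩
  · refine (norm_inner_le_norm _ _).trans ?_
    rw [mul_assoc]
    exact mul_le_mul hw h.1 (norm_nonneg _) hK
  · rw [← inner_sub_right]
    refine (norm_inner_le_norm _ _).trans ?_
    rw [mul_assoc]
    exact mul_le_mul hw h.2 (norm_nonneg _) hK

lemma LL.innr {x y : V} (h : LL a b M x y) {w : V} (hw : ‖w‖ ≤ K) :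
    LL a b (K * M) (inner ℝ x w : ℝ) (inner ℝ y w) := by
  rw [real_inner_comm, real_inner_comm w y]
  exact h.innl hw

lemma QQ.mono {x y : ℝ} (h : QQ a b M x y) (ha : 0 ≤ a) (hb : 0 ≤ b) (hM : M ≤ M') :
    QQ a b M' x y :=
  h.trans (mul_le_mul_of_nonneg_right hM (by positivity))

lemma QQ.const (x : ℝ) : QQ a b 0 x x := by simp [QQ]

lemma QQ.add {x y x' y' : ℝ} (h : QQ a b M x y) (h' : QQ a b M' x' y') :
    QQ a b (M + M') (x + x') (y + y') := by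
  unfold QQ at *
  have e : y + y' - (x + x') = (y - x) + (y' - x') := by ring
  rw [e]
  refine (abs_add_le _ _).trans ?_
  linarith

lemma QQ.sub {x y x' y' : ℝ} (h : QQ a b M x y) (h' : QQ a b M' x' y') :
    QQ a b (M + M') (x - x') (y - y') := by
  unfold QQ at *
  have e : y - y' - (x - x') = (y - x) + -(y' - x') := by ring
  rw [e]
  refine (abs_add_le _ _).trans ?_
  rw [abs_neg]
  linarith

lemma QQ.neg {x y : ℝ} (h : QQ a b M x y) : QQ a b M (-x) (-y) := by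
  unfold QQ at *
  have e : -y - -x = -(y - x) := by ring
  rw [e, abs_neg]
  exact h

lemma QQ.sum {f g : Fin 2 → ℝ} (h : ∀ i, QQ a b M (f i) (g i)) :
    QQ a b (2 * M) (∑ i, f i) (∑ i, g i) := by
  rw [Fin.sum_univ_two, Fin.sum_univ_two, two_mul]
  exact (h 0).add (h 1)

lemma QQ.mulc {x y : ℝ} (h : QQ a b M x y) {c : ℝ} (hc : |c| ≤ K) :
    QQ a b (K * M) (c * x) (c * y) := by
  unfold QQ at *
  have hK : 0 ≤ K := (abs_nonneg _).trans hc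
  rw [← mul_sub, abs_mul, mul_assoc]
  exact mul_le_mul hc h (abs_nonneg _) hK

lemma QQ.inn {x y x' y' : V} (ha : 0 ≤ a) (hb : 0 ≤ b) (h : LL a b M x y)
    (h' : LL a b M' x' y') : QQ a b (M * M') (inner ℝ x x') (inner ℝ y y') := by
  unfold QQ
  have e : (inner ℝ y y' : ℝ) - inner ℝ x x'
      = inner ℝ (y - x) x' + inner ℝ x (y' - x') + inner ℝ (y - x) (y' - x') := by
    simp only [inner_sub_left, inner_sub_right]
    ring
  rw [e]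
  have h1 : |(inner ℝ (y - x) x' : ℝ)| ≤ (M * b) * (M' * a) :=
    (abs_real_inner_le_norm _ _).trans
      (mul_le_mul h.2 h'.1 (norm_nonneg _) ((norm_nonneg _).trans h.2))
  have h2 : |(inner ℝ x (y' - x') : ℝ)| ≤ (M * a) * (M' * b) :=
    (abs_real_inner_le_norm _ _).trans
      (mul_le_mul h.1 h'.2 (norm_nonneg _) ((norm_nonneg _).trans h.1))
  have h3 : |(inner ℝ (y - x) (y' - x') : ℝ)| ≤ (M * b) * (M' * b) :=
    (abs_real_inner_le_norm _ _).trans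
      (mul_le_mul h.2 h'.2 (norm_nonneg _) ((norm_nonneg _).trans h.2))
  have h4 := abs_add_le (inner ℝ (y - x) x' + inner ℝ x (y' - x') : ℝ)
    (inner ℝ (y - x) (y' - x'))
  have h5 := abs_add_le (inner ℝ (y - x) x' : ℝ) (inner ℝ x (y' - x'))
  nlinarith

lemma QQ.mul {x y x' y' : ℝ} (ha : 0 ≤ a) (hb : 0 ≤ b) (h : LL a b M x y)
    (h' : LL a b M' x' y') : QQ a b (M * M') (x * x') (y * y') := by
  have := QQ.inn ha hb h' h
  simp only [mul_comm M M']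
  simpa using this

lemma QQ.nsq {x y : V} (ha : 0 ≤ a) (hb : 0 ≤ b) (h : LL a b M x y) :
    QQ a b (M * M) (‖x‖ ^ 2) (‖y‖ ^ 2) := by
  have := QQ.inn ha hb h h
  rwa [real_inner_self_eq_norm_sq, real_inner_self_eq_norm_sq] at this

lemma QQ.rsq {x y : ℝ} (ha : 0 ≤ a) (hb : 0 ≤ b) (h : LL a b M x y) :
    QQ a b (M * M) (x ^ 2) (y ^ 2) := by
  have := QQ.mul ha hb h h
  rw [pow_two x, pow_two y]
  exact this

end Calc

/-! ### Size of the algebraic quantities -/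

section Size

variable {N : ℕ}

/-- the standing assumptions -/
structure Sz (A : Fin 2 → Fin 2 → EE N) (s : ℝ) : Prop where
  s0 : 0 < s
  hs : ‖Hv A‖ = s
  hX : XX A ≤ YY A

variable {A : Fin 2 → Fin 2 → EE N} {s : ℝ}

lemma Sz.Y (h : Sz A s) : YY A = s ^ 2 := by rw [YY, h.hs]

lemma Sz.Y0 (h : Sz A s) : 0 < YY A := by
  rw [h.Y]; exact pow_pos h.s0 2

lemma Sz.bA (h : Sz A s) (i j : Fin 2) : ‖A i j‖ ≤ s := by
  have h1 : ‖A i j‖ ^ 2 ≤ XX A := by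
    unfold XX
    refine le_trans ?_ (Finset.single_le_sum (f := fun i => ∑ j, ‖A i j‖ ^ 2)
      (fun i _ => Finset.sum_nonneg fun j _ => sq_nonneg _) (Finset.mem_univ i))
    exact Finset.single_le_sum (f := fun j => ‖A i j‖ ^ 2) (fun j _ => sq_nonneg _)
      (Finset.mem_univ j)
  have h2 := h.hX
  rw [h.Y] at h2
  exact le_of_sq_le_sq (h1.trans h2) h.s0.le

lemma Sz.z (h : Sz A s) (i j : Fin 2) : |zz A i j| ≤ s ^ 2 := by
  unfold zz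
  refine (abs_real_inner_le_norm _ _).trans ?_
  rw [h.hs, pow_two]
  exact mul_le_mul_of_nonneg_right (h.bA i j) h.s0.le

lemma Z_le (A : Fin 2 → Fin 2 → EE N) : ZZ A ≤ XX A * YY A := by
  unfold ZZ XX YY zz
  rw [Finset.sum_mul]
  refine Finset.sum_le_sum fun i _ => ?_
  rw [Finset.sum_mul]
  refine Finset.sum_le_sum fun j _ => ?_
  rw [← mul_pow, ← sq_abs]
  exact pow_le_pow_left₀ (abs_nonneg _) (abs_real_inner_le_norm _ _) 2

lemma X_nn (A : Fin 2 → Fin 2 → EE N) : 0 ≤ XX A :=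
  Finset.sum_nonneg fun i _ => Finset.sum_nonneg fun j _ => sq_nonneg _

lemma Z_nn (A : Fin 2 → Fin 2 → EE N) : 0 ≤ ZZ A :=
  Finset.sum_nonneg fun i _ => Finset.sum_nonneg fun j _ => sq_nonneg _

/-- `x = X/Y` -/
noncomputable def xx (A : Fin 2 → Fin 2 → EE N) : ℝ := XX A / YY A
/-- `u = Z/Y²` -/
noncomputable def uu (A : Fin 2 → Fin 2 → EE N) : ℝ := ZZ A / YY A ^ 2

lemma Sz.x0 (h : Sz A s) : 0 ≤ xx A := div_nonneg (X_nn A) h.Y0.le
lemma Sz.x1 (h : Sz A s) : xx A ≤ 1 := (div_le_one h.Y0).mpr h.hX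
lemma Sz.u0 (h : Sz A s) : 0 ≤ uu A := div_nonneg (Z_nn A) (sq_nonneg _)
lemma Sz.u1 (h : Sz A s) : uu A ≤ 1 := by
  refine (div_le_one (pow_pos h.Y0 2)).mpr ((Z_le A).trans ?_)
  rw [pow_two]
  exact mul_le_mul_of_nonneg_right h.hX h.Y0.le

lemma cbd {x u : ℝ} (hx0 : 0 ≤ x) (hx1 : x ≤ 1) (hu0 : 0 ≤ u) (hu1 : u ≤ 1) :
    0 ≤ x * u ∧ x * u ≤ 1 ∧ 0 ≤ u ^ 2 ∧ u ^ 2 ≤ 1 :=
  ⟨mul_nonneg hx0 hu0, mul_le_one₀ hx1 hu0 hu1, sq_nonneg _, pow_le_one₀ hu0 hu1⟩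

lemma cdv {c d K : ℝ} (hc : |c| ≤ K) (hd : 0 < d) : |c / d| ≤ K / d := by
  rw [abs_div, abs_of_pos hd]
  exact div_le_div_of_nonneg_right hc hd.le

lemma Sz.a1 (h : Sz A s) : |a1D 0 (J3 A)| ≤ 7 := by
  have e : a1D 0 (J3 A) = (-1 / 10) * xx A + (53 / 8000) + (327 / 800) * uu A
      + (-7 / 20) * (xx A * uu A) + (-23 / 20) * (uu A) ^ 2 := by
    rw [J3, a1D0 _ _ _ h.Y0, Mf, xx, uu]
    have := h.Y0.ne'
    field_simp
  obtain ⟨h1, h2, h3, h4⟩ := cbd h.x0 h.x1 h.u0 h.u1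
  have := h.x0
  have := h.x1
  have := h.u0
  have := h.u1
  rw [e, abs_le]
  constructor <;> linarith

lemma Sz.a3 (h : Sz A s) : |a3D 0 (J3 A)| ≤ 7 / s ^ 2 := by
  have e : a3D 0 (J3 A) = (-17 / 50 + 3 / 2 * uu A) / s ^ 2 := by
    rw [J3, a3D0 _ _ _ h.Y0, Nf, uu, ← h.Y]
    have := h.Y0.ne'
    field_simp
  rw [e]
  apply cdv _ (pow_pos h.s0 2)
  have := h.u0
  have := h.u1
  rw [abs_le]
  constructor <;> linarith

lemma Sz.U (h : Sz A s) : ‖Uv A‖ ≤ 4 * s ^ 3 := by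
  unfold Uv
  have h1 : ∀ i j : Fin 2, ‖zz A i j • A i j‖ ≤ s ^ 3 := fun i j => by
    rw [norm_smul, Real.norm_eq_abs]
    calc |zz A i j| * ‖A i j‖ ≤ s ^ 2 * s :=
          mul_le_mul (h.z i j) (h.bA i j) (norm_nonneg _) (sq_nonneg _)
      _ = s ^ 3 := by ring
  simp only [Fin.sum_univ_two]
  have := norm_add_le (zz A 0 0 • A 0 0 + zz A 0 1 • A 0 1) (zz A 1 0 • A 1 0 + zz A 1 1 • A 1 1)
  have := norm_add_le (zz A 0 0 • A 0 0) (zz A 0 1 • A 0 1)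
  have := norm_add_le (zz A 1 0 • A 1 0) (zz A 1 1 • A 1 1)
  have := h1 0 0
  have := h1 0 1
  have := h1 1 0
  have := h1 1 1
  linarith

lemma Sz.bN (h : Sz A s) : ‖Na (cD 0) A‖ ≤ 35 * s := by
  unfold Na
  refine (norm_add_le _ _).trans ?_
  rw [norm_smul, norm_smul, h.hs]
  have h1 : ‖(cD 0).a₁ (J3 A)‖ * s ≤ 7 * s := mul_le_mul_of_nonneg_right h.a1 h.s0.le
  have h2 : ‖(cD 0).a₃ (J3 A)‖ * ‖Uv A‖ ≤ 7 / s ^ 2 * (4 * s ^ 3) :=
    mul_le_mul h.a3 h.U (norm_nonneg _) (by positivity)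
  have h3 : 7 / s ^ 2 * (4 * s ^ 3) = 28 * s := by
    have := h.s0.ne'
    field_simp
    ring
  linarith

end Size

/-! ### The main difference estimate -/

section Main

variable {N : ℕ} {A : Fin 2 → Fin 2 → EE N} {s a b : ℝ}
  {T T' : Fin 2 → Fin 2 → Fin 2 → EE N} {P : Fin 2 → ℝ}

/-- the assumptions on the jets -/
structure Jt (A : Fin 2 → Fin 2 → EE N) (T T' : Fin 2 → Fin 2 → Fin 2 → EE N) (P : Fin 2 → ℝ)
    (s a b : ℝ) : Prop where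
  h : Sz A s
  a0 : 0 ≤ a
  b0 : 0 ≤ b
  t : ∀ i j k, LL a b 1 (T i j k) (T' i j k)
  p : ∀ k, LL a b (1 / s) (P k) (P k)

lemma Jt.e (J : Jt A T T' P s a b) (k : Fin 2) : LL a b 2 (et T k) (et T' k) :=
  (LL.sum fun i => J.t i i k).mono J.a0 J.b0 (by norm_num)

lemma Jt.gx (J : Jt A T T' P s a b) (k : Fin 2) : LL a b (8 * s) (gX A T k) (gX A T' k) :=
  ((LL.sum fun i => LL.sum fun j => (J.t i j k).innl (J.h.bA i j)).mulc
    (c := 2) (K := 2) (by norm_num)).mono J.a0 J.b0 (by linarith)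

lemma Jt.gy (J : Jt A T T' P s a b) (k : Fin 2) : LL a b (4 * s) (gY A T k) (gY A T' k) :=
  (((J.e k).innl J.h.hs.le).mulc
    (c := 2) (K := 2) (by norm_num)).mono J.a0 J.b0 (by linarith)

lemma Jt.gzz (J : Jt A T T' P s a b) (i j k : Fin 2) :
    LL a b (3 * s) (gz A T i j k) (gz A T' i j k) :=
  (((J.t i j k).innr J.h.hs.le).add ((J.e k).innl (J.h.bA i j))).mono J.a0 J.b0 (by linarith)

lemma Jt.gZZ (J : Jt A T T' P s a b) (k : Fin 2) :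
    LL a b (24 * s ^ 3) (gZ A T k) (gZ A T' k) :=
  ((LL.sum fun i => LL.sum fun j => (J.gzz i j k).mulc (J.h.z i j)).mulc
    (c := 2) (K := 2) (by norm_num)).mono J.a0 J.b0 (by ring_nf; rfl)

lemma Jt.DLb (J : Jt A T T' P s a b) (k : Fin 2) {c₁ c₂ c₃ c₄ c₅ : ℝ}
    (h1 : |c₁ + c₄ * uu A| ≤ 7)
    (h2 : |c₂ - c₃ * uu A - 2 * c₄ * (xx A * uu A) - 3 * c₅ * uu A ^ 2| ≤ 7)
    (h3 : |c₃ + c₄ * xx A + 2 * c₅ * uu A| ≤ 7) :
    LL a b (252 * s)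
      (DL c₁ c₂ c₃ c₄ c₅ (XX A) (YY A) (ZZ A) (gX A T k) (gY A T k) (gZ A T k))
      (DL c₁ c₂ c₃ c₄ c₅ (XX A) (YY A) (ZZ A) (gX A T' k) (gY A T' k) (gZ A T' k)) := by
  have h3' := cdv h3 J.h.Y0
  refine ((((J.gx k).mulc h1).add ((J.gy k).mulc h2)).add ((J.gZZ k).mulc h3')).mono J.a0 J.b0 ?_
  have : (7 / YY A) * (24 * s ^ 3) = 168 * s := by
    rw [J.h.Y]
    have := J.h.s0.ne'
    field_simp
    ring
  linarith

lemma Jt.ph (J : Jt A T T' P s a b) (l : ℝ) (ν : EE N) (v : Fin 2 → ℝ) (k : Fin 2) :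
    LL a b (252 * s) (gph l (cD 0) A T ν v k) (gph l (cD 0) A T' ν v k) := by
  have e : ∀ T : Fin 2 → Fin 2 → Fin 2 → EE N, gph l (cD 0) A T ν v k
      = DL (13 / 80) (-9 / 640) (-43 / 320) (7 / 40) (-7 / 40) (XX A) (YY A) (ZZ A)
        (gX A T k) (gY A T k) (gZ A T k) := fun T => dphi _ _ _ _ J.h.Y0 _ _ _ _
  rw [e T, e T']
  obtain ⟨h1, h2, h3, h4⟩ := cbd J.h.x0 J.h.x1 J.h.u0 J.h.u1
  have := J.h.x0
  have := J.h.x1
  have := J.h.u0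
  have := J.h.u1
  apply J.DLb k
  all_goals
    rw [abs_le]
    constructor <;> linarith

lemma Jt.fa2 (J : Jt A T T' P s a b) (k : Fin 2) :
    LL a b (252 * s) (fderiv ℝ (cD 0).a₂ (J3 A) (g3 A T k))
      (fderiv ℝ (cD 0).a₂ (J3 A) (g3 A T' k)) := by
  have e : ∀ T : Fin 2 → Fin 2 → Fin 2 → EE N, fderiv ℝ (cD 0).a₂ (J3 A) (g3 A T k)
      = DL (1 / 20) (-53 / 16000) (-11 / 320) (7 / 40) (-7 / 40) (XX A) (YY A) (ZZ A)
        (gX A T k) (gY A T k) (gZ A T k) := fun T => da2 _ _ _ J.h.Y0 _ _ _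
  rw [e T, e T']
  obtain ⟨h1, h2, h3, h4⟩ := cbd J.h.x0 J.h.x1 J.h.u0 J.h.u1
  have := J.h.x0
  have := J.h.x1
  have := J.h.u0
  have := J.h.u1
  apply J.DLb k
  all_goals
    rw [abs_le]
    constructor <;> linarith

lemma Jt.fa1 (J : Jt A T T' P s a b) (k : Fin 2) :
    LL a b (252 / s) (fderiv ℝ (cD 0).a₁ (J3 A) (g3 A T k))
      (fderiv ℝ (cD 0).a₁ (J3 A) (g3 A T' k)) := by
  have e : ∀ T : Fin 2 → Fin 2 → Fin 2 → EE N, fderiv ℝ (cD 0).a₁ (J3 A) (g3 A T k)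
      = DM (-1 / 10) (53 / 8000) (327 / 800) (-7 / 20) (-23 / 20) (XX A) (YY A) (ZZ A)
        (gX A T k) (gY A T k) (gZ A T k) := fun T => da1 _ _ _ J.h.Y0 _ _ _
  rw [e T, e T']
  obtain ⟨h1, h2, h3, h4⟩ := cbd J.h.x0 J.h.x1 J.h.u0 J.h.u1
  have := J.h.x0
  have := J.h.x1
  have := J.h.u0
  have := J.h.u1
  have k1 : |((-1 / 10 : ℝ) + (-7 / 20) * uu A) / YY A| ≤ 7 / YY A := by
    apply cdv _ J.h.Y0
    rw [abs_le]
    constructor <;> linarith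
  have k2 : |(-(-1 / 10 : ℝ) * xx A - 2 * (327 / 800) * uu A - 3 * (-7 / 20) * (xx A * uu A)
        - 4 * (-23 / 20) * uu A ^ 2) / YY A| ≤ 7 / YY A := by
    apply cdv _ J.h.Y0
    rw [abs_le]
    constructor <;> linarith
  have k3 : |((327 / 800 : ℝ) + (-7 / 20) * xx A + 2 * (-23 / 20) * uu A) / YY A ^ 2|
      ≤ 7 / YY A ^ 2 := by
    apply cdv _ (pow_pos J.h.Y0 2)
    rw [abs_le]
    constructor <;> linarith
  refine ((((J.gx k).mulc k1).add ((J.gy k).mulc k2)).add ((J.gZZ k).mulc k3)).mono J.a0 J.b0 ?_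
  rw [J.h.Y]
  have := J.h.s0.ne'
  apply le_of_eq
  field_simp
  ring

lemma Jt.fa3 (J : Jt A T T' P s a b) (k : Fin 2) :
    LL a b (196 / s ^ 3) (fderiv ℝ (cD 0).a₃ (J3 A) (g3 A T k))
      (fderiv ℝ (cD 0).a₃ (J3 A) (g3 A T' k)) := by
  have e : ∀ T : Fin 2 → Fin 2 → Fin 2 → EE N, fderiv ℝ (cD 0).a₃ (J3 A) (g3 A T k)
      = DN (-17 / 50) (3 / 2) (YY A) (ZZ A)
        (gY A T k) (gZ A T k) := fun T => da3 _ _ _ J.h.Y0 _ _ _
  rw [e T, e T']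
  have := J.h.u0
  have := J.h.u1
  have k1 : |(-(-17 / 50 : ℝ) - 3 * (3 / 2) * uu A) / YY A ^ 2| ≤ 7 / YY A ^ 2 := by
    apply cdv _ (pow_pos J.h.Y0 2)
    rw [abs_le]
    constructor <;> linarith
  have k2 : |(3 / 2 : ℝ) / YY A ^ 3| ≤ 7 / YY A ^ 3 := by
    apply cdv _ (pow_pos J.h.Y0 3)
    rw [abs_le]
    constructor <;> norm_num
  refine (((J.gy k).mulc k1).add ((J.gZZ k).mulc k2)).mono J.a0 J.b0 ?_
  rw [J.h.Y]
  have := J.h.s0.ne'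
  apply le_of_eq
  field_simp
  ring

lemma Jt.dNb (J : Jt A T T' P s a b) (k : Fin 2) :
    LL a b 1162 (dNa (cD 0) A T k) (dNa (cD 0) A T' k) := by
  unfold dNa
  have h1 := (J.fa1 k).smulv J.h.hs.le
  have h2 := (J.e k).smul J.h.a1
  have h3 := (J.fa3 k).smulv J.h.U
  have h4 : LL a b (16 * s ^ 2) (dU A T k) (dU A T' k) := by
    unfold dU
    refine (LL.sum fun i => LL.sum fun j =>
      ((J.gzz i j k).smulv (J.h.bA i j)).add ((J.t i j k).smul (J.h.z i j))).mono J.a0 J.b0 ?_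
    ring_nf
    rfl
  have h5 := h4.smul J.h.a3
  refine (((h1.add h2).add h3).add h5).mono J.a0 J.b0 ?_
  have := J.h.s0.ne'
  apply le_of_eq
  field_simp
  ring

lemma Jt.dVb (J : Jt A T T' P s a b) (ν : EE N) :
    QQ a b 6000 (dVa 1 (cD 0) A T ν P) (dVa 1 (cD 0) A T' ν P) := by
  unfold dVa
  have h1 : ∀ k i : Fin 2, QQ a b (1162 + 0)
      ((inner ℝ (dNa (cD 0) A T k) (A k i) * P i
          + inner ℝ (Na (cD 0) A) (A k i) * ((if k = i then 1 else 0) + inner ℝ ν (A k i)) : ℝ))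
      (inner ℝ (dNa (cD 0) A T' k) (A k i) * P i
          + inner ℝ (Na (cD 0) A) (A k i) * ((if k = i then 1 else 0) + inner ℝ ν (A k i))) := by
    intro k i
    have h := (QQ.mul J.a0 J.b0 ((J.dNb k).innr (J.h.bA k i)) (J.p i)).mono (M' := 1162)
      J.a0 J.b0 (by
        have := J.h.s0.ne'
        apply le_of_eq
        field_simp)
    exact h.add (QQ.const _)
  have h2 : ∀ i : Fin 2, QQ a b 70
      (inner ℝ (Na (cD 0) A) (et T i) * P i : ℝ) (inner ℝ (Na (cD 0) A) (et T' i) * P i) := by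
    intro i
    exact (QQ.mul J.a0 J.b0 ((J.e i).innl J.h.bN) (J.p i)).mono J.a0 J.b0 (by
        have := J.h.s0.ne'
        apply le_of_eq
        field_simp
        ring)
  have h3 : ∀ k : Fin 2, QQ a b (252 + 0)
      (fderiv ℝ (cD 0).a₂ (J3 A) (g3 A T k) * P k + (cD 0).a₂ (J3 A) * (1 + inner ℝ ν (A k k)))
      (fderiv ℝ (cD 0).a₂ (J3 A) (g3 A T' k) * P k
        + (cD 0).a₂ (J3 A) * (1 + inner ℝ ν (A k k))) := by
    intro k
    have h := (QQ.mul J.a0 J.b0 (J.fa2 k) (J.p k)).mono (M' := 252) J.a0 J.b0 (by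
        have := J.h.s0.ne'
        apply le_of_eq
        field_simp)
    exact h.add (QQ.const _)
  exact ((((QQ.sum fun k => QQ.sum fun i => h1 k i).add (QQ.sum fun i => h2 i)).add
    (QQ.sum fun k => h3 k)).mulc (c := 1) (K := 1) (by norm_num)).mono J.a0 J.b0 (by norm_num)

lemma Jt.hxb (J : Jt A T T' P s a b) : QQ a b 16 (hX A T) (hX A T') := by
  unfold hX
  exact (((QQ.sum fun i => QQ.sum fun j => QQ.sum fun k =>
    QQ.nsq J.a0 J.b0 (J.t i j k)).mulc (c := -2) (K := 2) (by norm_num)).add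
    (QQ.const _)).mono J.a0 J.b0 (by norm_num)

lemma Jt.hyb (J : Jt A T T' P s a b) : QQ a b 16 (hY A T) (hY A T') := by
  unfold hY
  exact (((QQ.sum fun k =>
    QQ.nsq J.a0 J.b0 (J.e k)).mulc (c := -2) (K := 2) (by norm_num)).add
    (QQ.const _)).mono J.a0 J.b0 (by norm_num)

lemma Jt.hzb (J : Jt A T T' P s a b) : QQ a b (208 * s ^ 2) (hZ A T) (hZ A T') := by
  unfold hZ
  have h1 : QQ a b (8 * (2 * s ^ 2)) (∑ i, ∑ j, ∑ k, zz A i j * inner ℝ (T i j k) (et T k) : ℝ)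
      (∑ i, ∑ j, ∑ k, zz A i j * inner ℝ (T' i j k) (et T' k)) :=
    (QQ.sum fun i => QQ.sum fun j => QQ.sum fun k =>
      (QQ.inn J.a0 J.b0 (J.t i j k) (J.e k)).mulc (J.h.z i j)).mono J.a0 J.b0
        (by ring_nf; rfl)
  have h2 : QQ a b (8 * (9 * s ^ 2)) (∑ i, ∑ j, ∑ k, gz A T i j k ^ 2)
      (∑ i, ∑ j, ∑ k, gz A T' i j k ^ 2) :=
    (QQ.sum fun i => QQ.sum fun j => QQ.sum fun k =>
      QQ.rsq J.a0 J.b0 (J.gzz i j k)).mono J.a0 J.b0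
        (by ring_nf; rfl)
  exact (((((QQ.const _).sub (h1.mulc (c := 4) (K := 4) (by norm_num))).add (QQ.const _)).sub
    (QQ.const _)).sub (h2.mulc (c := 2) (K := 2) (by norm_num))).mono J.a0 J.b0
      (by ring_nf; rfl)

lemma Jt.D2b (J : Jt A T T' P s a b) (k : Fin 2) :
    QQ a b 6384 (D2 (13 / 80) (-9 / 640) (-43 / 320) (7 / 40) (-7 / 40) (XX A) (YY A) (ZZ A)
        (gX A T k) (gY A T k) (gZ A T k))
      (D2 (13 / 80) (-9 / 640) (-43 / 320) (7 / 40) (-7 / 40) (XX A) (YY A) (ZZ A)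
        (gX A T' k) (gY A T' k) (gZ A T' k)) := by
  obtain ⟨h1, h2, h3, h4⟩ := cbd J.h.x0 J.h.x1 J.h.u0 J.h.u1
  have := J.h.x0
  have := J.h.x1
  have := J.h.u0
  have := J.h.u1
  have k1 : |2 * (-2 * (7 / 40 : ℝ) * uu A) / YY A| ≤ 7 / YY A := by
    apply cdv _ J.h.Y0
    rw [abs_le]
    constructor <;> linarith
  have k2 : |2 * (7 / 40 : ℝ) / YY A ^ 2| ≤ 7 / YY A ^ 2 := by
    apply cdv _ (pow_pos J.h.Y0 2)
    rw [abs_le]
    constructor <;> norm_num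
  have k3 : |(2 * (-43 / 320 : ℝ) * uu A + 6 * (7 / 40) * (xx A * uu A)
      + 12 * (-7 / 40) * uu A ^ 2) / YY A| ≤ 7 / YY A := by
    apply cdv _ J.h.Y0
    rw [abs_le]
    constructor <;> linarith
  have k4 : |2 * (-(-43 / 320 : ℝ) - 2 * (7 / 40) * xx A - 6 * (-7 / 40) * uu A) / YY A ^ 2|
      ≤ 7 / YY A ^ 2 := by
    apply cdv _ (pow_pos J.h.Y0 2)
    rw [abs_le]
    constructor <;> linarith
  have k5 : |2 * (-7 / 40 : ℝ) / YY A ^ 3| ≤ 7 / YY A ^ 3 := by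
    apply cdv _ (pow_pos J.h.Y0 3)
    rw [abs_le]
    constructor <;> norm_num
  refine ((((((QQ.mul J.a0 J.b0 (J.gx k) (J.gy k)).mulc k1).add
    ((QQ.mul J.a0 J.b0 (J.gx k) (J.gZZ k)).mulc k2)).add
    ((QQ.mul J.a0 J.b0 (J.gy k) (J.gy k)).mulc k3)).add
    ((QQ.mul J.a0 J.b0 (J.gy k) (J.gZZ k)).mulc k4)).add
    ((QQ.mul J.a0 J.b0 (J.gZZ k) (J.gZZ k)).mulc k5)).mono J.a0 J.b0 ?_
  rw [J.h.Y]
  have := J.h.s0.ne'
  apply le_of_eq
  field_simp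
  ring

lemma Jt.hphb (J : Jt A T T' P s a b) (l : ℝ) (ν : EE N) (v : Fin 2 → ℝ) :
    QQ a b 15000 (hph l (cD 0) A T ν v) (hph l (cD 0) A T' ν v) := by
  have e : ∀ T : Fin 2 → Fin 2 → Fin 2 → EE N, hph l (cD 0) A T ν v
      = DL (13 / 80) (-9 / 640) (-43 / 320) (7 / 40) (-7 / 40) (XX A) (YY A) (ZZ A)
        (hX A T) (hY A T) (hZ A T)
        - ∑ k, D2 (13 / 80) (-9 / 640) (-43 / 320) (7 / 40) (-7 / 40) (XX A) (YY A) (ZZ A)
        (gX A T k) (gY A T k) (gZ A T k) := by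
    intro T
    unfold hph
    congr 1
    · exact dphi _ _ _ _ J.h.Y0 _ _ _ _
    · exact Finset.sum_congr rfl fun k _ => d2phi _ _ _ _ J.h.Y0 _ _ _ _
  rw [e T, e T']
  obtain ⟨h1, h2, h3, h4⟩ := cbd J.h.x0 J.h.x1 J.h.u0 J.h.u1
  have := J.h.x0
  have := J.h.x1
  have := J.h.u0
  have := J.h.u1
  have k1 : |(13 / 80 : ℝ) + 7 / 40 * uu A| ≤ 7 := by
    rw [abs_le]
    constructor <;> linarith
  have k2 : |(-9 / 640 : ℝ) - (-43 / 320) * uu A - 2 * (7 / 40) * (xx A * uu A)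
      - 3 * (-7 / 40) * uu A ^ 2| ≤ 7 := by
    rw [abs_le]
    constructor <;> linarith
  have k3 : |((-43 / 320 : ℝ) + 7 / 40 * xx A + 2 * (-7 / 40) * uu A) / YY A| ≤ 7 / YY A := by
    apply cdv _ J.h.Y0
    rw [abs_le]
    constructor <;> linarith
  refine ((((J.hxb.mulc k1).add (J.hyb.mulc k2)).add (J.hzb.mulc k3)).sub
    (QQ.sum fun k => J.D2b k)).mono J.a0 J.b0 ?_
  have : 7 / YY A * (208 * s ^ 2) = 1456 := by
    rw [J.h.Y]
    have := J.h.s0.ne'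
    field_simp
    norm_num
  rw [this]
  norm_num

lemma Jt.main (J : Jt A T T' P s a b) (l : ℝ) (ν : EE N) :
    QQ a b 22000 (Ig 1 l 0 A T ν P) (Ig 1 l 0 A T' ν P) := by
  unfold Ig dvA
  have h1 : QQ a b (1 * (2 * 252)) (1 * (∑ k, P k * gph l (cD 0) A T ν P k))
      (1 * (∑ k, P k * gph l (cD 0) A T' ν P k)) := by
    refine (QQ.sum fun k => (QQ.mul J.a0 J.b0 (J.p k) (J.ph l ν P k)).mono (M' := 252)
      J.a0 J.b0 ?_).mulc (by norm_num)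
    have := J.h.s0.ne'
    apply le_of_eq
    field_simp
  exact (((((J.hphb l ν P).neg.sub h1).add (J.dVb ν)).sub (QQ.const _)).add
    (QQ.const _)).mono J.a0 J.b0 (by norm_num)

end Main

/-! ### The dependence on `E` -/

section EPart

variable {N : ℕ} {A : Fin 2 → Fin 2 → EE N} {s : ℝ}

lemma Sz.tr (h : Sz A s) :
    (inner ℝ (Na (cD 0) A) (A 0 0) : ℝ) + inner ℝ (Na (cD 0) A) (A 1 1)
      + 2 * (cD 0).a₂ (J3 A) = 0 := by
  have e1 : (inner ℝ (Na (cD 0) A) (A 0 0) : ℝ) + inner ℝ (Na (cD 0) A) (A 1 1)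
      = a1D 0 (J3 A) * YY A + a3D 0 (J3 A) * ZZ A := by
    rw [← inner_add_right]
    have hH : A 0 0 + A 1 1 = Hv A := by simp [Hv, Fin.sum_univ_two]
    rw [hH, Na, inner_add_left, inner_smul_left, inner_smul_left, real_inner_self_eq_norm_sq]
    have hU : (inner ℝ (Uv A) (Hv A) : ℝ) = ZZ A := by
      unfold Uv ZZ
      rw [sum_inner]
      refine Finset.sum_congr rfl fun i _ => ?_
      rw [sum_inner]
      refine Finset.sum_congr rfl fun j _ => ?_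
      rw [inner_smul_left]
      simp only [zz, conj_trivial]
      ring
    rw [hU]
    simp only [conj_trivial]
    rfl
  rw [e1]
  change _ + 2 * a2D 0 (J3 A) = 0
  rw [J3, a1D0 _ _ _ h.Y0, a3D0 _ _ _ h.Y0, a2D0 _ _ _ h.Y0, Lf, Mf, Nf]
  have := h.Y0.ne'
  field_simp
  ring

lemma Sz.split (h : Sz A s) (T : Fin 2 → Fin 2 → Fin 2 → EE N) (ν : EE N) (v : Fin 2 → ℝ)
    (κ l : ℝ) :
    Ig κ l 0 A T ν v = Ig 1 l 0 A T (-(Hv A)) (fun k => κ * v k)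
      + (∑ k, ∑ i, (inner ℝ (Na (cD 0) A) (A k i) : ℝ) * inner ℝ (Hv A + κ • ν) (A k i))
      + ((cD 0).a₂ (J3 A) - fD 0 (J3 A)) * inner ℝ (Hv A + κ • ν) (Hv A)
      + fD 0 (J3 A) * ‖Hv A + κ • ν‖ ^ 2 := by
  have e1 : hph l (cD 0) A T (-(Hv A)) (fun k => κ * v k) = hph l (cD 0) A T ν v := by
    unfold hph
    congr 1
    · exact (dphi _ _ _ _ h.Y0 _ _ _ _).trans (dphi _ _ _ _ h.Y0 _ _ _ _).symm
    · exact Finset.sum_congr rfl fun k _ =>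
        (d2phi _ _ _ _ h.Y0 _ _ _ _).trans (d2phi _ _ _ _ h.Y0 _ _ _ _).symm
  have e2 : ∀ k, gph l (cD 0) A T (-(Hv A)) (fun k => κ * v k) k = gph l (cD 0) A T ν v k :=
    fun k => (dphi _ _ _ _ h.Y0 _ _ _ _).trans (dphi _ _ _ _ h.Y0 _ _ _ _).symm
  have e3 := h.tr
  have e4 : (inner ℝ ν (Hv A) : ℝ) = inner ℝ ν (A 0 0) + inner ℝ ν (A 1 1) := by
    simp [Hv, Fin.sum_univ_two, inner_add_right]
  have e5 : YY A = (inner ℝ (Hv A) (A 0 0) : ℝ) + inner ℝ (Hv A) (A 1 1) := by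
    rw [← inner_add_right]
    have hH : A 0 0 + A 1 1 = Hv A := by simp [Hv, Fin.sum_univ_two]
    rw [hH, real_inner_self_eq_norm_sq]
    rfl
  have e6 : ‖Hv A + κ • ν‖ ^ 2 = YY A + 2 * κ * inner ℝ ν (Hv A) + κ ^ 2 * ‖ν‖ ^ 2 := by
    rw [← real_inner_self_eq_norm_sq, ← real_inner_self_eq_norm_sq ν, YY,
      ← real_inner_self_eq_norm_sq (Hv A)]
    simp only [inner_add_left, inner_add_right, inner_smul_left, inner_smul_right,
      conj_trivial, real_inner_comm ν (Hv A)]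
    ring
  have e7 : ‖-(Hv A)‖ ^ 2 = YY A := by rw [norm_neg]; rfl
  have e8 : (inner ℝ (Hv A) (Hv A) : ℝ) = YY A := real_inner_self_eq_norm_sq _
  unfold Ig dvA
  rw [e1, e6, e7]
  simp only [e2]
  unfold dVa Va
  simp only [Fin.sum_univ_two, inner_add_left, inner_neg_left, inner_smul_left, conj_trivial,
    e8, e4, Fin.isValue, one_ne_zero, zero_ne_one, if_true, if_false]
  generalize (inner ℝ (Na (cD 0) A) (A 0 0) : ℝ) = n00 at *
  generalize (inner ℝ (Na (cD 0) A) (A 1 1) : ℝ) = n11 at *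
  generalize (inner ℝ (Na (cD 0) A) (A 0 1) : ℝ) = n01 at *
  generalize (inner ℝ (Na (cD 0) A) (A 1 0) : ℝ) = n10 at *
  generalize (cD 0).a₂ (J3 A) = a2 at *
  generalize (inner ℝ (Hv A) (A 0 0) : ℝ) = h00 at *
  generalize (inner ℝ (Hv A) (A 1 1) : ℝ) = h11 at *
  generalize YY A = Y at *
  subst e5
  linear_combination (κ - 1) * e3

/-- `θ = 2X - Y` -/
lemma th_eq (A : Fin 2 → Fin 2 → EE N) :
    2 * XX A - YY A = ‖A 0 0 - A 1 1‖ ^ 2 + 2 * ‖A 0 1‖ ^ 2 + 2 * ‖A 1 0‖ ^ 2 := by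
  unfold XX YY Hv
  simp only [Fin.sum_univ_two]
  rw [← real_inner_self_eq_norm_sq (A 0 0 + A 1 1), ← real_inner_self_eq_norm_sq (A 0 0 - A 1 1)]
  simp only [inner_add_left, inner_add_right, inner_sub_left, inner_sub_right,
    real_inner_self_eq_norm_sq]
  ring

lemma Sz.eb (h : Sz A s) (E : EE N) :
    |(∑ k, ∑ i, (inner ℝ (Na (cD 0) A) (A k i) : ℝ) * inner ℝ E (A k i))
      + (cD 0).a₂ (J3 A) * inner ℝ E (Hv A)| ≤ 18 * (s * ‖E‖ * (2 * XX A - YY A)) := by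
  have e3 := h.tr
  have e4 : (inner ℝ E (Hv A) : ℝ) = inner ℝ E (A 0 0) + inner ℝ E (A 1 1) := by
    simp [Hv, Fin.sum_univ_two, inner_add_right]
  have e5 : (∑ k, ∑ i, (inner ℝ (Na (cD 0) A) (A k i) : ℝ) * inner ℝ E (A k i))
      + (cD 0).a₂ (J3 A) * inner ℝ E (Hv A)
      = 1 / 2 * (inner ℝ (Na (cD 0) A) (A 0 0 - A 1 1) * inner ℝ E (A 0 0 - A 1 1))
        + inner ℝ (Na (cD 0) A) (A 0 1) * inner ℝ E (A 0 1)
        + inner ℝ (Na (cD 0) A) (A 1 0) * inner ℝ E (A 1 0) := by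
    simp only [Fin.sum_univ_two, inner_sub_right, e4]
    linear_combination (1 / 2) * (inner ℝ E (A 0 0) + inner ℝ E (A 1 1)) * e3
  rw [e5, th_eq]
  have hN := h.bN
  have key : ∀ w : EE N, |(inner ℝ (Na (cD 0) A) w : ℝ) * inner ℝ E w|
      ≤ 35 * s * ‖E‖ * ‖w‖ ^ 2 := by
    intro w
    rw [abs_mul]
    calc |(inner ℝ (Na (cD 0) A) w : ℝ)| * |(inner ℝ E w : ℝ)|
        ≤ (‖Na (cD 0) A‖ * ‖w‖) * (‖E‖ * ‖w‖) :=
          mul_le_mul (abs_real_inner_le_norm _ _) (abs_real_inner_le_norm _ _) (abs_nonneg _)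
            (by positivity)
      _ ≤ (35 * s * ‖w‖) * (‖E‖ * ‖w‖) := by gcongr
      _ = 35 * s * ‖E‖ * ‖w‖ ^ 2 := by ring
  have k0 := key (A 0 0 - A 1 1)
  have k1 := key (A 0 1)
  have k2 := key (A 1 0)
  have p0 : 0 ≤ s * ‖E‖ * ‖A 0 0 - A 1 1‖ ^ 2 := by have := h.s0; positivity
  have p1 : 0 ≤ s * ‖E‖ * ‖A 0 1‖ ^ 2 := by have := h.s0; positivity
  have p2 : 0 ≤ s * ‖E‖ * ‖A 1 0‖ ^ 2 := by have := h.s0; positivity
  rw [abs_le] at *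
  constructor <;> nlinarith

lemma Sz.fb (h : Sz A s) : 0 ≤ fD 0 (J3 A) ∧ fD 0 (J3 A) ≤ 2 * XX A - YY A := by
  have hY := h.Y0
  have h1 := Z_le A
  have h2 : YY A ^ 2 / 2 ≤ ZZ A := by
    have e1 : YY A = zz A 0 0 + zz A 1 1 := by
      unfold zz
      rw [← inner_add_left]
      have hH : A 0 0 + A 1 1 = Hv A := by simp [Hv, Fin.sum_univ_two]
      rw [hH, real_inner_self_eq_norm_sq]
      rfl
    have e2 : ZZ A = zz A 0 0 ^ 2 + zz A 0 1 ^ 2 + (zz A 1 0 ^ 2 + zz A 1 1 ^ 2) := by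
      simp [ZZ, Fin.sum_univ_two]
    rw [e1, e2]
    nlinarith [sq_nonneg (zz A 0 0 - zz A 1 1), sq_nonneg (zz A 0 1), sq_nonneg (zz A 1 0)]
  have h3 : ZZ A ≤ YY A ^ 2 := by
    rw [pow_two]
    exact h1.trans (mul_le_mul_of_nonneg_right h.hX hY.le)
  have hd : dn 0 (J3 A) = YY A ^ 4 := by simp [dn, J3]
  have hr : 0 ≤ rp (J3 A) := by simp only [rp, J3]; linarith
  have hm : 0 ≤ mp (J3 A) := by simp only [mp, J3]; linarith
  have hm2 : mp (J3 A) ≤ YY A ^ 2 / 2 := by simp only [mp, J3]; linarith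
  have hrm : (2 * XX A - YY A) * YY A = 2 * (rp (J3 A) + mp (J3 A)) := by
    simp only [rp, mp, J3]
    ring
  have hJ : (J3 A).2.1 = YY A := rfl
  unfold fD
  rw [hd, hJ]
  refine ⟨by positivity, ?_⟩
  rw [div_le_iff₀ (by positivity)]
  have e : (2 * XX A - YY A) * YY A ^ 4 = 2 * (rp (J3 A) + mp (J3 A)) * YY A ^ 3 := by
    rw [← hrm]; ring
  rw [e]
  have h4 : rp (J3 A) * mp (J3 A) * YY A ≤ rp (J3 A) * (YY A ^ 2 / 2) * YY A := by gcongr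
  have h5 : 0 ≤ rp (J3 A) * YY A ^ 3 := by positivity
  have h6 : 0 ≤ mp (J3 A) * YY A ^ 3 := by positivity
  nlinarith

end EPart

/-! ### Trace part -/

section Tr

variable {N : ℕ}

/-- `¼(δ_ij D_k + δ_ik D_j + δ_jk D_i)` -/
noncomputable def ST (D : Fin 2 → EE N) (i j k : Fin 2) : EE N :=
  (1 / 4 : ℝ) • ((if i = j then D k else 0) + (if i = k then D j else 0)
    + (if j = k then D i else 0))

lemma ST_sym (D : Fin 2 → EE N) : Sym3V (ST D) := by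
  constructor
  · intro i j k
    fin_cases i <;> fin_cases j <;> fin_cases k <;> simp [ST]
  · intro i j k
    fin_cases i <;> fin_cases j <;> fin_cases k <;> simp [ST]

lemma ST_et (D : Fin 2 → EE N) (k : Fin 2) : et (ST D) k = D k := by
  fin_cases k
  · simp only [et, ST, Fin.sum_univ_two]
    simp
    module
  · simp only [et, ST, Fin.sum_univ_two]
    simp
    module

lemma ST_tq (D : Fin 2 → EE N) : tq (ST D) ≤ ∑ k, ‖D k‖ ^ 2 := by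
  have h0 : ‖(1 / 4 : ℝ) • (D 0 + D 0 + D 0)‖ = 3 / 4 * ‖D 0‖ := by
    have : (1 / 4 : ℝ) • (D 0 + D 0 + D 0) = (3 / 4 : ℝ) • D 0 := by module
    rw [this, norm_smul]
    norm_num
  have h1 : ‖(1 / 4 : ℝ) • (D 1 + D 1 + D 1)‖ = 3 / 4 * ‖D 1‖ := by
    have : (1 / 4 : ℝ) • (D 1 + D 1 + D 1) = (3 / 4 : ℝ) • D 1 := by module
    rw [this, norm_smul]
    norm_num
  have h2 : ∀ k, ‖(1 / 4 : ℝ) • D k‖ = 1 / 4 * ‖D k‖ := fun k => by
    rw [norm_smul]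
    norm_num
  simp only [tq, ST, Fin.sum_univ_two, Fin.isValue, if_true, one_ne_zero, zero_ne_one, if_false,
    add_zero, zero_add, h0, h1, h2]
  nlinarith [sq_nonneg ‖D 0‖, sq_nonneg ‖D 1‖]

end Tr

/-! ### Assembly -/

lemma nrm_le_tq {N : ℕ} (T : Fin 2 → Fin 2 → Fin 2 → EE N) (i j k : Fin 2) :
    ‖T i j k‖ ^ 2 ≤ tq T := by
  have h : ∀ i j k, 0 ≤ ‖T i j k‖ ^ 2 := fun i j k => sq_nonneg _
  unfold tq
  refine le_trans ?_ (Finset.single_le_sum (f := fun i => ∑ j, ∑ k, ‖T i j k‖ ^ 2)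
    (fun i _ => Finset.sum_nonneg fun j _ => Finset.sum_nonneg fun k _ => h i j k)
    (Finset.mem_univ i))
  refine le_trans ?_ (Finset.single_le_sum (f := fun j => ∑ k, ‖T i j k‖ ^ 2)
    (fun j _ => Finset.sum_nonneg fun k _ => h i j k) (Finset.mem_univ j))
  exact Finset.single_le_sum (f := fun k => ‖T i j k‖ ^ 2) (fun k _ => h i j k)
    (Finset.mem_univ k)

lemma tq_nn {N : ℕ} (T : Fin 2 → Fin 2 → Fin 2 → EE N) : 0 ≤ tq T :=
  (sq_nonneg _).trans (nrm_le_tq T 0 0 0)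

lemma arith {η a b s e θ Y S R R0 g f1 f2 : ℝ} (hη : 0 < η) (hYs : Y = s ^ 2) (hθ0 : 0 ≤ θ)
    (hθ1 : θ ≤ Y) (hs : 0 ≤ s) (he : 0 ≤ e) (hS0 : 0 ≤ S) (hbS : b ^ 2 ≤ S)
    (hm : -(22000 * (2 * a * b + b ^ 2)) ≤ R - R0) (hR0 : η * (Y * θ) + η * a ^ 2 ≤ R0)
    (hg : -(18 * (s * e * θ)) ≤ g) (hf1 : f1 ≤ s * e * θ) (hf2 : 0 ≤ f2) :
    η / 2 * (Y * θ) - (22000 ^ 2 * η⁻¹ + 22000 + 200 * η⁻¹) * (S + e ^ 2 * Y)
      ≤ R + (g - f1) + f2 := by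
  have hη' : 0 < η⁻¹ := inv_pos.mpr hη
  have hY0 : 0 ≤ Y := hYs ▸ sq_nonneg s
  have q1 : 22000 * (2 * a * b) ≤ η * a ^ 2 + 22000 ^ 2 * η⁻¹ * b ^ 2 := by
    have e : η * a ^ 2 + 22000 ^ 2 * η⁻¹ * b ^ 2 - 22000 * (2 * a * b)
        = η * (a - 22000 * η⁻¹ * b) ^ 2 := by
      field_simp
      ring
    have : 0 ≤ η * (a - 22000 * η⁻¹ * b) ^ 2 := by positivity
    linarith
  have q2 : 20 * (s * e) ≤ η / 2 * s ^ 2 + 200 * η⁻¹ * e ^ 2 := by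
    have e' : η / 2 * s ^ 2 + 200 * η⁻¹ * e ^ 2 - 20 * (s * e)
        = η / 2 * (s - 20 * η⁻¹ * e) ^ 2 := by
      field_simp
      ring
    have : 0 ≤ η / 2 * (s - 20 * η⁻¹ * e) ^ 2 := by positivity
    linarith
  have q3 : 20 * (s * e * θ) ≤ η / 2 * (Y * θ) + 200 * η⁻¹ * (e ^ 2 * Y) := by
    calc 20 * (s * e * θ) = 20 * (s * e) * θ := by ring
      _ ≤ (η / 2 * s ^ 2 + 200 * η⁻¹ * e ^ 2) * θ := mul_le_mul_of_nonneg_right q2 hθ0
      _ = η / 2 * (Y * θ) + 200 * η⁻¹ * e ^ 2 * θ := by rw [hYs]; ring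
      _ ≤ η / 2 * (Y * θ) + 200 * η⁻¹ * e ^ 2 * Y := by gcongr
      _ = _ := by ring
  have q4 : (22000 ^ 2 * η⁻¹ + 22000) * b ^ 2 ≤ (22000 ^ 2 * η⁻¹ + 22000) * S :=
    mul_le_mul_of_nonneg_left hbS (by positivity)
  have q5 : 0 ≤ η⁻¹ * S := by positivity
  have q6 : 0 ≤ (22000 ^ 2 * η⁻¹ + 22000) * (e ^ 2 * Y) := by positivity
  have hsE : 0 ≤ s * e * θ := by positivity
  have q7 : (22000 ^ 2 * η⁻¹ + 22000 + 200 * η⁻¹) * (S + e ^ 2 * Y)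
      = (22000 ^ 2 * η⁻¹ + 22000) * S + 200 * (η⁻¹ * S)
        + (22000 ^ 2 * η⁻¹ + 22000) * (e ^ 2 * Y) + 200 * η⁻¹ * (e ^ 2 * Y) := by ring
  have q8 : 22000 * (2 * a * b + b ^ 2) = 22000 * (2 * a * b) + 22000 * b ^ 2 := by ring
  have q9 : (22000 ^ 2 * η⁻¹ + 22000) * b ^ 2
      = 22000 ^ 2 * η⁻¹ * b ^ 2 + 22000 * b ^ 2 := by ring
  rw [q7]
  rw [q8] at hm
  rw [q9] at q4
  linarith

/-- Module AR. -/
theorem hAR (hAS : StAS) : StAR := by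
  intro c₀ hc₀
  obtain ⟨η, hη, hS⟩ := hAS c₀ hc₀
  have hη' : 0 < η⁻¹ := inv_pos.mpr hη
  refine ⟨η / 2, 22000 ^ 2 * η⁻¹ + 22000 + 200 * η⁻¹, by positivity, by positivity, ?_⟩
  intro N A T ν v κ l hA hT hY hX
  have hXY : XX A ≤ YY A := hX.trans (by nlinarith)
  have hs0 : 0 < ‖Hv A‖ := by
    refine norm_pos_iff.mpr fun h0 => ?_
    rw [YY, h0, norm_zero] at hY
    norm_num at hY
  have h : Sz A ‖Hv A‖ := ⟨hs0, rfl, hXY⟩
  set s := ‖Hv A‖ with hs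
  have hYs : YY A = s ^ 2 := h.Y
  set D : Fin 2 → EE N := DE κ A T v with hD
  set T₀ : Fin 2 → Fin 2 → Fin 2 → EE N := fun i j k => T i j k - ST D i j k with hT₀
  set P : Fin 2 → ℝ := fun k => κ * v k with hP
  have hsymS := ST_sym D
  have hT0s : Sym3V T₀ := by
    constructor
    · intro i j k
      simp only [hT₀, hT.1 i j k, hsymS.1 i j k]
    · intro i j k
      simp only [hT₀, hT.2 i j k, hsymS.2 i j k]
  have het : ∀ k, et T₀ k = ∑ i, P i • A k i := by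
    intro k
    have e1 : et T₀ k = et T k - et (ST D) k := by
      simp only [et, hT₀, Finset.sum_sub_distrib]
    rw [e1, ST_et, hD, DE, sub_sub_cancel, Finset.smul_sum]
    exact Finset.sum_congr rfl fun i _ => by rw [smul_smul]
  have hS1 := hS N A T₀ P l hA hT0s hY hX het
  have hPn : 0 ≤ ∑ k, P k ^ 2 := Finset.sum_nonneg fun k _ => sq_nonneg _
  set a := Real.sqrt (tq T₀ + YY A * ∑ k, P k ^ 2) with ha
  set b := Real.sqrt (tq (ST D)) with hb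
  have haa : a ^ 2 = tq T₀ + YY A * ∑ k, P k ^ 2 :=
    Real.sq_sqrt (add_nonneg (tq_nn _) (mul_nonneg hY.le hPn))
  have hbb : b ^ 2 = tq (ST D) := Real.sq_sqrt (tq_nn _)
  have ha0 : 0 ≤ a := Real.sqrt_nonneg _
  have hb0 : 0 ≤ b := Real.sqrt_nonneg _
  have J : Jt A T₀ T P s a b := by
    refine ⟨h, ha0, hb0, ?_, ?_⟩
    · intro i j k
      refine ⟨?_, ?_⟩
      · rw [one_mul]
        apply le_of_sq_le_sq _ ha0
        rw [haa]
        have := nrm_le_tq T₀ i j k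
        have := mul_nonneg hY.le hPn
        linarith
      · rw [one_mul]
        have e : T i j k - T₀ i j k = ST D i j k := by simp [hT₀]
        rw [e]
        apply le_of_sq_le_sq _ hb0
        rw [hbb]
        exact nrm_le_tq _ i j k
    · intro k
      refine ⟨?_, ?_⟩
      · rw [Real.norm_eq_abs, one_div, inv_mul_eq_div, le_div_iff₀ h.s0]
        apply le_of_sq_le_sq _ ha0
        rw [haa, mul_pow, sq_abs, hYs]
        have h1 : P k ^ 2 ≤ ∑ k, P k ^ 2 :=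
          Finset.single_le_sum (f := fun k => P k ^ 2) (fun k _ => sq_nonneg _)
            (Finset.mem_univ k)
        have := tq_nn T₀
        nlinarith [sq_nonneg s]
      · rw [sub_self, norm_zero]
        have := h.s0
        positivity
  have hm := J.main l (-(Hv A))
  unfold QQ at hm
  have hDb : tq (ST D) ≤ ∑ k, ‖D k‖ ^ 2 := ST_tq D
  rw [h.split T ν v κ l]
  have heb := h.eb (Hv A + κ • ν)
  obtain ⟨hf0, hf1⟩ := h.fb
  set E := Hv A + κ • ν with hE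
  set f := fD 0 (J3 A) with hf
  set θ := 2 * XX A - YY A with hθ
  have hθ0 : 0 ≤ θ := hf0.trans hf1
  have hθ1 : θ ≤ YY A := by rw [hθ]; linarith
  have hin : |(inner ℝ E (Hv A) : ℝ)| ≤ ‖E‖ * s := abs_real_inner_le_norm _ _
  have hfin : f * inner ℝ E (Hv A) ≤ s * ‖E‖ * θ := by
    calc f * inner ℝ E (Hv A) ≤ f * (‖E‖ * s) :=
          mul_le_mul_of_nonneg_left ((le_abs_self _).trans hin) hf0
      _ ≤ θ * (‖E‖ * s) := mul_le_mul_of_nonneg_right hf1 (by positivity)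
      _ = s * ‖E‖ * θ := by ring
  have hfE : 0 ≤ f * ‖E‖ ^ 2 := by positivity
  have hmain := (abs_le.mp hm).1
  have hebl := (abs_le.mp heb).1
  have hS2 : η * (YY A * θ) + η * a ^ 2 ≤ Ig 1 l 0 A T₀ (-(Hv A)) P := by
    rw [haa]
    linarith
  have hex : (∑ k, ∑ i, (inner ℝ (Na (cD 0) A) (A k i) : ℝ) * inner ℝ E (A k i))
      + ((cD 0).a₂ (J3 A) - f) * inner ℝ E (Hv A)
      = ((∑ k, ∑ i, (inner ℝ (Na (cD 0) A) (A k i) : ℝ) * inner ℝ E (A k i))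
      + (cD 0).a₂ (J3 A) * inner ℝ E (Hv A)) - f * inner ℝ E (Hv A) := by ring
  rw [add_assoc (Ig 1 l 0 A T (-(Hv A)) P), hex]
  have hbS : b ^ 2 ≤ ∑ k, ‖D k‖ ^ 2 := by
    rw [hbb]
    exact hDb
  exact arith hη hYs hθ0 hθ1 h.s0.le (norm_nonneg _) ((sq_nonneg _).trans hbS) hbS hmain hS2
    hebl hfin hfE

end Pool.Agent.Helper9.CL
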